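import Pool.Agent.Helper43.PD.Rec
import Pool.Agent.Helper77.EV2.Bound

/-!
# EV3, leaves E0, E1, E3, E4: faces at the ends of the intervals, upper bounds, columns
-/

set_option autoImplicit false

namespace Pool.Agent.Helper77.PD

open Polynomial Pool.Agent.Helper85.Exp Pool.Agent.Helper60.EV2 Pool.Agent.Helper43.PD

variable {P : Type} {G : Sh P} {F : Type} {S : FS G F} {κ : F → ℤ} {n : ℕ}

theorem tau_le {T : TD G n} {N B : ℕ} (I : Iv S T N B) {j : ℕ} (hj : j ≤ N) : I.τ j ≤ T.m := by
  have h : ∀ k, j ≤ k → k ≤ N → I.τ j ≤ I.τ k := by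
    intro k hk
    induction k, hk using Nat.le_induction with
    | base => exact fun _ => le_rfl
    | succ k hk ih => exact fun hkN => (ih (by omega)).trans (I.mono k (by omega))
  have := h N hj le_rfl
  rwa [I.τN] at this

/-- a time is an end of an interval or inside of an interval -/
theorem time_cases {T : TD G n} {N B : ℕ} (I : Iv S T N B) {t : ℕ} (ht : t ≤ T.m) :
    (∃ j ≤ N, I.τ j = t) ∨ ∃ j < N, I.τ j < t ∧ t < I.τ (j + 1) := by
  by_contra hcon
  push Not at hcon
  obtain ⟨h1, h2⟩ := hcon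
  have h : ∀ j ≤ N, I.τ j < t := by
    intro j
    induction j with
    | zero =>
      intro h0
      have := h1 0 h0
      rw [I.τ0] at this ⊢
      omega
    | succ j ih =>
      intro hj
      have h3 := h2 j (by omega) (ih (by omega))
      have h4 := h1 (j + 1) hj
      omega
  have := h N le_rfl
  rw [I.τN] at this
  omega

theorem lf_ea {T : TD G n} (hop : ∀ i, G.op i ≠ i) (i : P) : ∃ t < T.m, ∃ v, T.e t v = i := by
  rcases Bool.eq_false_or_eq_true (G.lf i) with h | h
  · obtain ⟨t, ht, hx⟩ := T.sur i h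
    exact ⟨t, ht, T.b t, by rw [T.eb t ht, hx]⟩
  · have h1 : G.lf (G.op i) = true := by rw [G.lf_op i (hop i), h]; rfl
    obtain ⟨t, ht, hx⟩ := T.sur _ h1
    exact ⟨t, ht, T.a t, by rw [T.ea t ht, hx, G.op_op]⟩

/-- E0: irregular faces border edges at the ends of the intervals -/
theorem irr_bdry [Fintype P] (h : Pl G S κ) {T : TD G n} {N B : ℕ} (I : Iv S T N B) {f : F} (hf : ¬ Rg S T f) :
    ∃ j ≤ N, ∃ v, S.L (T.e (I.τ j) v) = f ∨ S.R (T.e (I.τ j) v) = f := by
  have key : ∀ t ≤ T.m, ∀ v, (S.L (T.e t v) = f ∨ S.R (T.e t v) = f) →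
      ∃ j ≤ N, ∃ v, S.L (T.e (I.τ j) v) = f ∨ S.R (T.e (I.τ j) v) = f := by
    intro t
    induction t with
    | zero =>
      intro _ v hv
      exact ⟨0, Nat.zero_le _, v, by rw [I.τ0]; exact hv⟩
    | succ t ih =>
      intro ht v hv
      rcases time_cases I ht with ⟨j, hj, hj'⟩ | ⟨j, hj, h1, h2⟩
      · exact ⟨j, hj, v, by rw [hj']; exact hv⟩
      have htm : t < T.m := ht
      have hreg : Rg S T (S.No (T.x t)) := by
        rcases I.one j hj with h3 | h3
        · exact h3 t (by omega) (by omega)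
        · omega
      have hlf := T.lf t htm
      by_cases hvb : v = T.b t
      · subst hvb
        rw [T.eb' t htm] at hv
        rcases hv with hv | hv
        · rw [← S.north _ hlf] at hv
          exact absurd (hv ▸ hreg) hf
        · rw [← S.east _ hlf] at hv
          exact ih htm.le (T.b t) (Or.inr (by rw [T.eb t htm]; exact hv))
      by_cases hva : v = T.a t
      · subst hva
        rw [T.ea' t htm] at hv
        rcases hv with hv | hv
        · rw [← S.west _ hlf] at hv
          exact ih htm.le (T.a t) (Or.inl (by rw [T.ea t htm]; exact hv))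
        · exact absurd (hv ▸ hreg) hf
      rw [T.eo t htm v hva hvb] at hv
      exact ih htm.le v hv
  obtain ⟨i, hi⟩ := h.surj f
  obtain ⟨t, ht, v, hv⟩ := lf_ea (T := T) h.cross i
  exact key t ht.le v (by rw [hv]; exact hi)

/-- inside of an interval the faces between neighbouring labels agree -/
theorem side_eq {T : TD G n} {N B : ℕ} (I : Iv S T N B) {j : ℕ} (hj : j < N) {v w : Fin n}
    (hvw : I.pos j w = I.pos j v + 1) : ∀ t, I.τ j ≤ t → t ≤ I.τ (j + 1) → S.R (T.e t v) = S.L (T.e t w) := by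
  obtain ⟨t1, h1, h2, ha, hb⟩ := I.sep j hj v w hvw
  have hm : I.τ (j + 1) ≤ T.m := tau_le I (by omega)
  have hinj := I.inj j hj
  have hst : ∀ t, I.τ j ≤ t → t < I.τ (j + 1) →
      (T.a t = v ∧ T.b t = w → S.R (T.e t v) = S.L (T.e t w) ∧ S.R (T.e (t + 1) v) = S.L (T.e (t + 1) w)) ∧
      (¬ (T.a t = v ∧ T.b t = w) → S.R (T.e (t + 1) v) = S.R (T.e t v) ∧ S.L (T.e (t + 1) w) = S.L (T.e t w)) := by
    intro t ht1 ht2
    have htm : t < T.m := by omega
    have hlf := T.lf t htm
    have hadj := I.adj j hj t ht1 ht2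
    constructor
    · rintro ⟨rfl, rfl⟩
      rw [T.ea t htm, T.eb t htm, T.ea' t htm, T.eb' t htm]
      exact ⟨S.south _ hlf, S.north _ hlf⟩
    · intro hne
      have hva : v ≠ T.a t := by
        intro hv
        refine hne ⟨hv.symm, hinj ?_⟩
        rw [hadj, hvw, hv]
      have hwb : w ≠ T.b t := by
        intro hw
        refine hne ⟨hinj ?_, hw.symm⟩
        rw [hw] at hvw
        omega
      constructor
      · by_cases hvb : v = T.b t
        · subst hvb
          rw [T.eb' t htm, T.eb t htm]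
          exact (S.east _ hlf).symm
        · rw [T.eo t htm v hva hvb]
      · by_cases hwa : w = T.a t
        · subst hwa
          rw [T.ea' t htm, T.ea t htm]
          exact (S.west _ hlf).symm
        · rw [T.eo t htm w hwa hwb]
  have h0 := (hst t1 h1 h2).1 ⟨ha, hb⟩
  -- upwards
  have hup : ∀ t, t1 ≤ t → t ≤ I.τ (j + 1) → S.R (T.e t v) = S.L (T.e t w) := by
    intro t ht
    induction t, ht using Nat.le_induction with
    | base => exact fun _ => h0.1
    | succ t ht ih =>
      intro ht2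
      have h3 := hst t (by omega) (by omega)
      by_cases hc : T.a t = v ∧ T.b t = w
      · exact (h3.1 hc).2
      · rw [(h3.2 hc).1, (h3.2 hc).2]
        exact ih (by omega)
  have hdown : ∀ k, k ≤ t1 → I.τ j ≤ t1 - k → S.R (T.e (t1 - k) v) = S.L (T.e (t1 - k) w) := by
    intro k
    induction k with
    | zero => exact fun _ _ => h0.1
    | succ k ih =>
      intro hk1 hk2
      have h3 := hst (t1 - (k + 1)) hk2 (by omega)
      have e : t1 - (k + 1) + 1 = t1 - k := by omega
      rw [e] at h3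
      by_cases hc : T.a (t1 - (k + 1)) = v ∧ T.b (t1 - (k + 1)) = w
      · exact (h3.1 hc).1
      · rw [← (h3.2 hc).1, ← (h3.2 hc).2]
        exact ih (by omega) (by omega)
  intro t ht1 ht2
  rcases le_total t1 t with hc | hc
  · exact hup t hc ht2
  · have := hdown (t1 - t) (by omega) (by omega)
    have e : t1 - (t1 - t) = t := by omega
    rwa [e] at this

open Classical in
/-- the gap values at the time `t` in the interval `j` -/
noncomputable def gp (T : TD G n) {N B : ℕ} (I : Iv S T N B) (c : F → ℂ) (j t i : ℕ) : ℂ :=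
  if h : ∃ v, I.pos j v = i then c (S.L (T.e t h.choose))
  else if h : ∃ v, I.pos j v + 1 = i then c (S.R (T.e t h.choose)) else 0

theorem gp_L {T : TD G n} {N B : ℕ} (I : Iv S T N B) (c : F → ℂ) {j t : ℕ} (hj : j < N) (v : Fin n) :
    gp T I c j t (I.pos j v) = c (S.L (T.e t v)) := by
  unfold gp
  have h : ∃ v', I.pos j v' = I.pos j v := ⟨v, rfl⟩
  rw [dif_pos h, I.inj j hj h.choose_spec]

theorem gp_R {T : TD G n} {N B : ℕ} (I : Iv S T N B) (c : F → ℂ) {j t : ℕ} (hj : j < N) (h1 : I.τ j ≤ t)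
    (h2 : t ≤ I.τ (j + 1)) (v : Fin n) : gp T I c j t (I.pos j v + 1) = c (S.R (T.e t v)) := by
  by_cases hw : ∃ w, I.pos j w = I.pos j v + 1
  · obtain ⟨w, hw⟩ := hw
    rw [← hw, gp_L I c hj, side_eq I hj hw t h1 h2]
  · unfold gp
    have h : ∃ v', I.pos j v' + 1 = I.pos j v + 1 := ⟨v, rfl⟩
    rw [dif_neg hw, dif_pos h, I.inj j hj (Nat.succ_injective h.choose_spec)]

open Pool.Agent.Helper78.EV2 Pool.Agent.Helper78.EV in
theorem gp_step {T : TD G n} {N B : ℕ} (I : Iv S T N B) (c : F → ℂ) {s : ℂ} {j t : ℕ} (hj : j < N) (h1 : I.τ j ≤ t)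
    (h2 : t < I.τ (j + 1)) (hr : prow S s (T.x t) c = 0) :
    gp T I c j (t + 1) = fstep s (gp T I c j t) (I.pos j (T.a t)) := by
  have htm : t < T.m := lt_of_lt_of_le h2 (tau_le I (by omega))
  have hlf := T.lf t htm
  have hadj := I.adj j hj t h1 h2
  funext i
  unfold fstep
  by_cases hi : i = I.pos j (T.a t) + 1
  · subst hi
    rw [Function.update_self]
    have e1 : gp T I c j (t + 1) (I.pos j (T.a t) + 1) = c (S.No (T.x t)) := by
      rw [gp_R I c hj (by omega) h2, T.ea' t htm]
      rfl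
    have e2 : gp T I c j t (I.pos j (T.a t) + 1) = c (S.So (T.x t)) := by
      rw [← hadj, gp_L I c hj, T.eb t htm]
      rfl
    have e3 : gp T I c j t (I.pos j (T.a t)) = c (S.We (T.x t)) := by
      rw [gp_L I c hj, T.ea t htm, S.west _ hlf]
      rfl
    have e4 : gp T I c j t (I.pos j (T.a t) + 2) = c (S.Ea (T.x t)) := by
      have e5 : I.pos j (T.a t) + 2 = I.pos j (T.b t) + 1 := by omega
      rw [e5, gp_R I c hj h1 h2.le, T.eb t htm]
      rfl
    rw [e1, e2, e3, e4]
    unfold prow at hr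
    linear_combination hr
  · rw [Function.update_of_ne hi]
    by_cases hv : ∃ v, I.pos j v = i
    · obtain ⟨v, rfl⟩ := hv
      rw [gp_L I c hj, gp_L I c hj]
      have hvb : v ≠ T.b t := by
        rintro rfl
        exact hi hadj
      by_cases hva : v = T.a t
      · subst hva
        rw [T.ea' t htm, T.ea t htm, S.west _ hlf]
      · rw [T.eo t htm v hva hvb]
    · by_cases hw : ∃ v, I.pos j v + 1 = i
      · obtain ⟨v, rfl⟩ := hw
        rw [gp_R I c hj (by omega) h2, gp_R I c hj h1 h2.le]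
        have hva : v ≠ T.a t := by
          rintro rfl
          exact hi rfl
        by_cases hvb : v = T.b t
        · subst hvb
          rw [T.eb' t htm, T.eb t htm, S.east _ hlf]
        · rw [T.eo t htm v hva hvb]
      · unfold gp
        rw [dif_neg hv, dif_neg hw, dif_neg hv, dif_neg hw]

open Pool.Agent.Helper78.EV2 Pool.Agent.Helper78.EV in
theorem gp_run {T : TD G n} {N B : ℕ} (I : Iv S T N B) (c : F → ℂ) {s : ℂ} {j : ℕ} (hj : j < N)
    (hr : ∀ t, I.τ j ≤ t → t < I.τ (j + 1) → prow S s (T.x t) c = 0) (k : ℕ) (hk : I.τ j + k ≤ I.τ (j + 1)) :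
    gp T I c j (I.τ j + k) = frun s ((List.range k).map fun r => I.pos j (T.a (I.τ j + r))) (gp T I c j (I.τ j)) := by
  induction k with
  | zero => rfl
  | succ k ih =>
    rw [List.range_succ, List.map_append]
    have e := gp_step I c hj (by omega) (by omega) (hr (I.τ j + k) (by omega) (by omega))
    rw [← add_assoc, e, ih (by omega)]
    unfold frun
    rw [List.foldl_append]
    rfl

/-- E1: upper bounds at the ends of the intervals -/
theorem up {T : TD G n} {N B : ℕ} (I : Iv S T N B) {s : ℂ} {K0 M : ℝ} (hK : 1 ≤ K0)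
    (hR : Pool.Agent.Helper77.EV2.RunBd s B K0) (c : F → ℂ) (hM : ∀ f, ¬ Rg S T f → ‖c f‖ ≤ M)
    (hr : ∀ t < T.m, Rg S T (S.No (T.x t)) → prow S s (T.x t) c = 0) :
    ∀ j ≤ N, ∀ v, ‖c (S.L (T.e (I.τ j) v))‖ ≤ K0 ^ j * M ∧ ‖c (S.R (T.e (I.τ j) v))‖ ≤ K0 ^ j * M := by
  intro j
  induction j with
  | zero =>
    intro _ v
    rw [I.τ0, pow_zero, one_mul]
    exact ⟨hM _ fun h => (h.2 v).1 rfl, hM _ fun h => (h.2 v).2 rfl⟩
  | succ j ih =>
    intro hj v₀
    have hjN : j < N := hj
    have ih' := ih hjN.le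
    have hM0 : 0 ≤ M := (norm_nonneg _).trans (hM _ fun h => (h.2 v₀).1 rfl)
    have hKj : 0 ≤ K0 ^ j * M := by positivity
    have hKs : K0 ^ j * M ≤ K0 ^ (j + 1) * M := by
      apply mul_le_mul_of_nonneg_right _ hM0
      exact pow_le_pow_right₀ hK (Nat.le_succ j)
    have hMs : M ≤ K0 ^ (j + 1) * M := by
      have := one_le_pow₀ (n := j + 1) hK
      nlinarith
    by_cases hall : ∀ t, I.τ j ≤ t → t < I.τ (j + 1) → Rg S T (S.No (T.x t))
    · have hmono := I.mono j hjN
      have hm : I.τ (j + 1) ≤ T.m := tau_le I hj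
      obtain ⟨k, hk⟩ : ∃ k, I.τ (j + 1) = I.τ j + k := ⟨I.τ (j + 1) - I.τ j, by omega⟩
      have hrun := gp_run I c hjN (s := s) (fun t h1 h2 => hr t (by omega) (hall t h1 h2)) k hk.ge
      rw [← hk] at hrun
      have hbd : ∀ i ≤ B, ‖gp T I c j (I.τ j) i‖ ≤ K0 ^ j * M := by
        intro i _
        by_cases hv : ∃ v, I.pos j v = i
        · obtain ⟨v, rfl⟩ := hv
          rw [gp_L I c hjN]
          exact (ih' v).1
        · by_cases hw : ∃ v, I.pos j v + 1 = i
          · obtain ⟨v, rfl⟩ := hw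
            rw [gp_R I c hjN le_rfl hmono]
            exact (ih' v).2
          · unfold gp
            rw [dif_neg hv, dif_neg hw, norm_zero]
            exact hKj
      have h3 := hR B le_rfl ((List.range k).map fun r => I.pos j (T.a (I.τ j + r))) (by
        intro a ha
        rw [List.mem_map] at ha
        obtain ⟨r, hr', rfl⟩ := ha
        rw [List.mem_range] at hr'
        have h4 := I.adj j hjN (I.τ j + r) (by omega) (by omega)
        have h5 := I.lt j hjN (T.b (I.τ j + r))
        omega) (gp T I c j (I.τ j)) (K0 ^ j * M) hbd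
      rw [← hrun] at h3
      have h6 : K0 * (K0 ^ j * M) = K0 ^ (j + 1) * M := by ring
      rw [h6] at h3
      have h7 := I.lt j hjN v₀
      constructor
      · have := h3 (I.pos j v₀) (by omega)
        rwa [gp_L I c hjN] at this
      · have := h3 (I.pos j v₀ + 1) (by omega)
        rwa [gp_R I c hjN hmono le_rfl] at this
    · have hone := I.one j hjN
      rcases hone with hone | hone
      · exact absurd hone hall
      push Not at hall
      obtain ⟨t, ht1, ht2, hirr⟩ := hall
      have ht : t = I.τ j := by omega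
      subst ht
      have htm : I.τ j < T.m := lt_of_lt_of_le ht2 (tau_le I hj)
      have hlf := T.lf _ htm
      have hN : ‖c (S.No (T.x (I.τ j)))‖ ≤ K0 ^ (j + 1) * M := (hM _ hirr).trans hMs
      rw [hone]
      by_cases hvb : v₀ = T.b (I.τ j)
      · subst hvb
        rw [T.eb' _ htm, ← S.north _ hlf, ← S.east _ hlf]
        refine ⟨hN, ?_⟩
        have := (ih' (T.b (I.τ j))).2
        rw [T.eb _ htm] at this
        exact this.trans hKs
      by_cases hva : v₀ = T.a (I.τ j)
      · subst hva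
        rw [T.ea' _ htm, ← S.west _ hlf]
        refine ⟨?_, hN⟩
        have := (ih' (T.a (I.τ j))).1
        rw [T.ea _ htm] at this
        exact this.trans hKs
      rw [T.eo _ htm v₀ hva hvb]
      exact ⟨(ih' v₀).1.trans hKs, (ih' v₀).2.trans hKs⟩

/-- E3: the norm of the determinant does not depend on the order of the columns -/
theorem det_col [Fintype P] {b : P} {φ φ' : Cr G → F} (hφ : Col S b φ) (hφ' : Col S b φ') (s : ℂ) :
    ‖dP S s φ‖ = ‖dP S s φ'‖ := by
  classical
  have hex : ∀ q : Cr G, ∃ q' : Cr G, φ q' = φ' q := fun q => (hφ.mem _).2 ((hφ'.mem _).1 ⟨q, rfl⟩)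
  choose σ hσ using hex
  have hinj : Function.Injective σ := by
    intro q q' h
    apply hφ'.inj
    rw [← hσ, ← hσ, h]
  have hbij : Function.Bijective σ := Finite.injective_iff_bijective.1 hinj
  have e : Mp S s φ' = (Mp S s φ).submatrix id (Equiv.ofBijective σ hbij) := by
    ext p q
    simp only [Mp, Matrix.of_apply, Matrix.submatrix_apply, id_eq, Equiv.ofBijective_apply, hσ]
  unfold dP
  rw [e, Matrix.det_permute', norm_mul]
  have h1 : ‖(((Equiv.Perm.sign (Equiv.ofBijective σ hbij) : ℤˣ) : ℤ) : ℂ)‖ = 1 := by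
    rcases Int.units_eq_one_or (Equiv.Perm.sign (Equiv.ofBijective σ hbij)) with h | h <;> rw [h] <;> simp
  rw [h1, one_mul]

/-- E4: columns in which every regular face is numbered by its crossing -/
theorem exists_col_reg [Fintype P] (h : Pl G S κ) {T : TD G n} {o : Fin n} {b : P} (hb : T.e 0 o = b) :
    ∃ φ : Cr G → F, Col S b φ ∧ ∀ p : Cr G, Rg S T (S.No p) → φ p = S.No p := by
  classical
  have hfin : Finite F := Nat.finite_of_card_ne_zero (by rw [h.card]; omega)
  have : Fintype F := Fintype.ofFinite F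
  have hne : S.L b ≠ S.R b := by
    intro h1
    have := h.idx b
    rw [h1] at this
    omega
  let t : Finset F := (Finset.univ.erase (S.L b)).erase (S.R b)
  have ht : Fintype.card (Cr G) = t.card := by
    have h1 := h.card
    have h2 : crossings G = Fintype.card (Cr G) := by
      have h3 : crossings G = Nat.card (Cr G) := rfl
      rw [h3, Nat.card_eq_fintype_card]
    rw [Nat.card_eq_fintype_card] at h1
    rw [Finset.card_erase_of_mem (Finset.mem_erase.2 ⟨hne.symm, Finset.mem_univ _⟩),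
      Finset.card_erase_of_mem (Finset.mem_univ _), Finset.card_univ, h1, h2]
    omega
  let sset : Finset (Cr G) := Finset.univ.filter fun p => Rg S T (S.No p)
  have h1 : sset.image (fun p : Cr G => S.No p) ⊆ t := by
    intro f hf
    rw [Finset.mem_image] at hf
    obtain ⟨p, hp, rfl⟩ := hf
    have hp' := ((Finset.mem_filter.1 hp).2).2 o
    rw [hb] at hp'
    exact Finset.mem_erase.2 ⟨hp'.2.symm, Finset.mem_erase.2 ⟨hp'.1.symm, Finset.mem_univ _⟩⟩
  have h2 : Set.InjOn (fun p : Cr G => S.No p) sset := by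
    intro p hp p' _ heq
    have hp1 := ((Finset.mem_filter.1 hp).2).1
    obtain ⟨t1, ht1, hx1⟩ := T.sur p.1 p.2
    obtain ⟨t2, ht2, hx2⟩ := T.sur p'.1 p'.2
    have h3 : t1 = t2 := hp1.unique ⟨ht1, by rw [hx1]⟩ ⟨ht2, by rw [hx2]; exact heq.symm⟩
    apply Subtype.ext
    rw [← hx1, ← hx2, h3]
  obtain ⟨g, hg⟩ := Finset.exists_equiv_extend_of_card_eq ht h1 h2
  refine ⟨fun p => (g p : F), ⟨fun p p' hpp => g.injective (Subtype.ext hpp), fun f => ?_⟩, fun p hp => ?_⟩
  · constructor
    · rintro ⟨q, rfl⟩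
      have := (g q).2
      exact ⟨(Finset.mem_erase.1 (Finset.mem_erase.1 this).2).1, (Finset.mem_erase.1 this).1⟩
    · rintro ⟨hf1, hf2⟩
      have hf : f ∈ t := Finset.mem_erase.2 ⟨hf2, Finset.mem_erase.2 ⟨hf1, Finset.mem_univ _⟩⟩
      exact ⟨g.symm ⟨f, hf⟩, by rw [Equiv.apply_symm_apply]⟩
  · exact hg p (Finset.mem_filter.2 ⟨Finset.mem_univ _, hp⟩)

end Pool.Agent.Helper77.PD
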